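import Pool.Agent.N102.FL.Stm

/-!
Project FL (helper102), part FORM: initial forms of the Laurent polynomials `LP`.
-/

set_option autoImplicit false

universe u

namespace Pool.Agent.N102.FL

namespace FORM

section aux

variable {T : Type} (p : ℕ) [Fact p.Prime] (e : T → ℕ) (f : ℕ)

omit [Fact p.Prime] in
lemma ex_none : ex p e f (none : Option T) = 0 := by
  funext j; rfl

omit [Fact p.Prime] in
lemma ex_some_self (t : T) : ex p e f (some t) t = (p : ℤ) ^ (e t - f) := by
  simp [ex]

omit [Fact p.Prime] in
lemma ex_some_ne {t j : T} (h : j ≠ t) : ex p e f (some t) j = 0 := by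
  simp [ex, h]

lemma ex_inj : Function.Injective (ex p e f : Option T → (T → ℤ)) := by
  have hp : ∀ n : ℕ, (p : ℤ) ^ n ≠ 0 := fun n =>
    pow_ne_zero _ (by exact_mod_cast (Fact.out : p.Prime).ne_zero)
  intro o o' h
  rcases o with _ | t <;> rcases o' with _ | t'
  · rfl
  · exfalso
    have := congrFun h t'
    rw [ex_none, ex_some_self] at this
    exact hp _ this.symm
  · exfalso
    have := congrFun h t
    rw [ex_none, ex_some_self] at this
    exact hp _ this
  · by_cases htt : t = t'
    · rw [htt]
    · exfalso
      have := congrFun h t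
      rw [ex_some_self, ex_some_ne p e f htt] at this
      exact hp _ this

/-- the embedding -/
noncomputable def emb : Option T ↪ (T → ℤ) := ⟨ex p e f, ex_inj p e f⟩

variable [Fintype T]

omit [Fact p.Prime] in
lemma prod_ex {κ : Type u} [Field κ] (z : T → κ) (o : Option T) :
    ∏ j, z j ^ (ex p e f o j) = mv p e f z o := by
  rcases o with _ | t
  · simp [ex_none, mv]
  · rw [Finset.prod_eq_single t]
    · rw [ex_some_self]
      show z t ^ ((p : ℤ) ^ (e t - f)) = z t ^ p ^ (e t - f)
      rw [← zpow_natCast]; push_cast; rfl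
    · intro j _ hj
      rw [ex_some_ne p e f hj, zpow_zero]
    · intro h; exact absurd (Finset.mem_univ t) h

omit [Fact p.Prime] in
lemma wt_ex {k : Type u} [Field k] (l : T → ℤ) (c : Option T → k) (hc : LevelGe e f c) (o : Option T)
    (ho : c o ≠ 0) : (p : ℤ) ^ f * ∑ j, l j * ex p e f o j = wt p e l o := by
  rcases o with _ | t
  · simp [ex_none, wt]
  · rw [Finset.sum_eq_single t]
    · rw [ex_some_self]
      have hf : f ≤ e t := hc t ho
      show (p : ℤ) ^ f * (l t * (p : ℤ) ^ (e t - f)) = (p : ℤ) ^ e t * l t
      rw [show e t = f + (e t - f) by omega, pow_add]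
      have : f + (e t - f) - f = e t - f := by omega
      rw [this]; ring
    · intro j _ hj
      rw [ex_some_ne p e f hj, mul_zero]
    · intro h; exact absurd (Finset.mem_univ t) h

variable {k : Type u} [Field k] [CharP k p] [PerfectRing k p]

omit [Fintype T] in
lemma rt_eq_zero (a : k) : rt p f a = 0 ↔ a = 0 := by
  unfold rt
  exact (iterateFrobeniusEquiv k p f).symm.map_eq_zero_iff

lemma LP_apply (c : Option T → k) (o : Option T) : LP p e f c (ex p e f o) = rt p f (c o) := by
  classical
  unfold LP
  rw [Finsupp.finset_sum_apply]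
  rw [Finset.sum_eq_single o]
  · simp
  · intro o' _ ho'
    rw [Finsupp.single_apply, if_neg]
    intro h; exact ho' (ex_inj p e f h)
  · intro h; exact absurd (Finset.mem_univ o) h

open Classical in
lemma LP_support (c : Option T → k) :
    (LP p e f c).support = (Finset.univ.filter (fun o => c o ≠ 0)).map (emb p e f) := by
  ext m
  rw [Finsupp.mem_support_iff, Finset.mem_map]
  constructor
  · intro hm
    by_cases h : ∃ o, ex p e f o = m
    · obtain ⟨o, rfl⟩ := h
      refine ⟨o, ?_, rfl⟩
      rw [Finset.mem_filter]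
      refine ⟨Finset.mem_univ _, fun h0 => hm ?_⟩
      rw [LP_apply, rt_eq_zero]; exact h0
    · exfalso
      apply hm
      unfold LP
      rw [Finsupp.finset_sum_apply]
      apply Finset.sum_eq_zero
      intro o _
      rw [Finsupp.single_apply, if_neg]
      intro h'; exact h ⟨o, h'⟩
  · rintro ⟨o, ho, rfl⟩
    rw [Finset.mem_filter] at ho
    show LP p e f c (ex p e f o) ≠ 0
    rw [LP_apply, Ne, rt_eq_zero]
    exact ho.2

open Classical in
lemma face_eq (c : Option T → k) (hc : LevelGe e f c) (l : T → ℤ) :
    face (LP p e f c) l = (Finset.univ.filter (fun o => IsMin p e l c o)).map (emb p e f) := by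
  have hp : (0 : ℤ) < (p : ℤ) ^ f := pow_pos (by exact_mod_cast (Fact.out : p.Prime).pos) _
  ext m
  unfold face
  rw [Finset.mem_filter, LP_support, Finset.mem_map, Finset.mem_map]
  constructor
  · rintro ⟨⟨o, ho, rfl⟩, h⟩
    rw [Finset.mem_filter] at ho
    refine ⟨o, ?_, rfl⟩
    rw [Finset.mem_filter]
    refine ⟨Finset.mem_univ _, ho.2, fun o' ho' => ?_⟩
    have := h (emb p e f o') (Finset.mem_map_of_mem _ (by rw [Finset.mem_filter]; exact ⟨Finset.mem_univ _, ho'⟩))
    rw [← wt_ex p e f l c hc o ho.2, ← wt_ex p e f l c hc o' ho']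
    exact mul_le_mul_of_nonneg_left this hp.le
  · rintro ⟨o, ho, rfl⟩
    rw [Finset.mem_filter] at ho
    refine ⟨⟨o, by rw [Finset.mem_filter]; exact ⟨Finset.mem_univ _, ho.2.1⟩, rfl⟩, ?_⟩
    intro m' hm'
    rw [Finset.mem_map] at hm'
    obtain ⟨o', ho', rfl⟩ := hm'
    rw [Finset.mem_filter] at ho'
    have := ho.2.2 o' ho'.2
    rw [← wt_ex p e f l c hc o ho.2.1, ← wt_ex p e f l c hc o' ho'.2] at this
    exact le_of_mul_le_mul_left this hp

end aux

end FORM

open FORM

theorem t_form : S_FORM.{u} := by
  intro p _ k κ _ _ _ _ _ T _ e f c hc l z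
  classical
  haveI : CharP κ p := charP_of_injective_algebraMap (algebraMap k κ).injective p
  refine ⟨?_, ?_, ?_⟩
  · unfold vl vL
    rw [face_eq p e f c hc l, Finset.sum_map, Finset.sum_filter]
    apply Finset.sum_congr rfl
    intro o _
    by_cases h : IsMin p e l c o
    · rw [if_pos h, if_pos h]
      show algebraMap k κ (LP p e f c (ex p e f o)) * ∏ j, z j ^ (ex p e f o j) = _
      rw [LP_apply, prod_ex]
    · rw [if_neg h, if_neg h]
  · funext t
    unfold gv gL
    rw [face_eq p e f c hc l, Finset.sum_map, Finset.sum_filter]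
    rw [Finset.sum_eq_single (some t)]
    · by_cases h : IsMin p e l c (some t)
      · rw [if_pos h]
        show algebraMap k κ (LP p e f c (ex p e f (some t))) * ((ex p e f (some t) t : ℤ) : κ) *
          ∏ j, z j ^ (ex p e f (some t) j) = _
        rw [LP_apply, prod_ex, ex_some_self]
        have hf : f ≤ e t := hc t h.1
        by_cases h2 : e t = f
        · rw [if_pos ⟨h, h2⟩]
          show _ * z t ^ p ^ (e t - f) = _
          rw [h2]; simp
        · rw [if_neg (fun hh => h2 hh.2)]
          have h3 : e t - f ≠ 0 := by omega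
          have h4 : (((p : ℤ) ^ (e t - f) : ℤ) : κ) = 0 := by
            push_cast
            rw [CharP.cast_eq_zero, zero_pow h3]
          rw [h4]; ring
      · rw [if_neg h, if_neg (fun hh => h hh.1)]
    · intro o _ ho
      by_cases h : IsMin p e l c o
      · rw [if_pos h]
        show algebraMap k κ (LP p e f c (ex p e f o)) * ((ex p e f o t : ℤ) : κ) *
          ∏ j, z j ^ (ex p e f o j) = _
        have : ex p e f o t = 0 := by
          rcases o with _ | t'
          · rw [ex_none]; rfl
          · apply ex_some_ne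
            intro h'; exact ho (by rw [h'])
        rw [this]; simp
      · rw [if_neg h]
    · intro h; exact absurd (Finset.mem_univ _) h
  · unfold lv
    rw [LP_support, Finset.sum_map, Finset.sum_filter]
    apply Finset.sum_congr rfl
    intro o _
    by_cases h : c o = 0
    · rw [if_neg (by simpa using h), h]
      have : rt p f (0 : k) = 0 := (rt_eq_zero p f 0).2 rfl
      rw [this]; simp
    · rw [if_pos h]
      show LP p e f c (ex p e f o) • ∏ j, z j ^ (ex p e f o j) = _
      rw [LP_apply, prod_ex, Algebra.smul_def]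

end Pool.Agent.N102.FL
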